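import Pool.Agent.Work.MP_3e0647_al.Laurent
import Mathlib.Topology.Metrizable.Urysohn
import Mathlib.Topology.Metrizable.Uniformity
import Mathlib.Topology.MetricSpace.Pseudo.Basic

/-! The projective line over the Laurent series field over a finite field is metrizable. -/

set_option autoImplicit false

namespace Pool.Agent.Work.MP_3e0647_al.Mt

open Filter Topology LaurentSeries TopologicalSpace OnePoint Pool.Agent.Work.MP_3e0647_al

theorem second_laurent {F : Type} [Field F] [Finite F] : SecondCountableTopology F⸨X⸩ := by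
  have hb : (uniformity F⸨X⸩).HasBasis (fun _ : ℤ => True)
      fun e => {p : F⸨X⸩ × F⸨X⸩ | p.2 - p.1 ∈ ball F e} := by
    rw [uniformity_eq_comap_nhds_zero]
    exact basis_zero.comap _
  have : (uniformity F⸨X⸩).IsCountablyGenerated := hb.isCountablyGenerated
  have : SigmaCompactSpace F⸨X⸩ :=
    SigmaCompactSpace.of_countable (S := Set.range (ball F)) (Set.countable_range _)
      (by rintro _ ⟨d, rfl⟩; exact isCompact_ball d)
      (Set.eq_univ_of_forall fun x => by
        obtain ⟨d, hd⟩ := exists_ball x
        exact ⟨_, ⟨d, rfl⟩, hd⟩)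
  let := UniformSpace.pseudoMetricSpace F⸨X⸩
  exact EMetric.secondCountable_of_sigmaCompact _

theorem second_onePoint {K : Type} [TopologicalSpace K] [SecondCountableTopology K]
    (f : OnePoint K → OnePoint K) (hf : IsHomeomorph f) (x : K) (hx : f x = ∞) :
    SecondCountableTopology (OnePoint K) := by
  have h1 : IsOpenEmbedding ((↑) : K → OnePoint K) := isOpenEmbedding_coe
  have h2 : IsOpenEmbedding (f ∘ ((↑) : K → OnePoint K)) := hf.isOpenEmbedding.comp h1
  let g : Bool → K → OnePoint K := fun b => cond b (↑) (f ∘ (↑))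
  have hg : ∀ b, IsOpenEmbedding (g b) := fun b => by cases b <;> assumption
  have : ∀ b, SecondCountableTopology (Set.range (g b)) := fun b =>
    (hg b).isEmbedding.toHomeomorph.symm.secondCountableTopology
  refine secondCountableTopology_of_countable_cover (U := fun b => Set.range (g b))
    (fun b => (hg b).isOpen_range) (Set.eq_univ_of_forall fun y => Set.mem_iUnion.2 ?_)
  cases y with
  | infty => exact ⟨false, x, hx⟩
  | coe y => exact ⟨true, y, rfl⟩

theorem main : ∃ (M : Type) (_ : TopologicalSpace M) (_ : CompactSpace M) (_ : T2Space M)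
    (G : Type) (_ : Group G) (_ : MulAction G M), Infinite M ∧ MetrizableSpace M ∧
    (∀ g : G, IsHomeomorph fun x : M => g • x) ∧
    (∀ s t : Triple M, ∃! g : G, act g s = t) ∧
    ∀ _τ : TopologicalSpace G, ¬ ∀ t : Triple M, IsHomeomorph fun g : G => act g t := by
  classical
  obtain ⟨σ, hσ, χ, hχ, hc, ⟨w, hw⟩, a, ha, hχa⟩ := exists_data
  have := weaklyLocallyCompact (F := F4)
  have : Infinite F4⸨X⸩ := Infinite.of_injective (fun n : ℤ => (HahnSeries.single n 1 : F4⸨X⸩)) (by
    intro m n h
    have := congrArg Valued.v h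
    simp only [val_single _ (one_ne_zero (α := F4)), WithZero.exp_inj] at this
    omega)
  have := second_laurent (F := F4)
  have hfl : IsHomeomorph fun x : OnePoint F4⸨X⸩ => flip F4⸨X⸩ • x := by
    rw [isHomeomorph_iff_exists_inverse]
    exact ⟨continuous_gl tendsto_inv_cocompact tendsto_inv_zero _, fun x => (flip F4⸨X⸩)⁻¹ • x,
      fun x => inv_smul_smul _ x, fun x => smul_inv_smul _ x,
      continuous_gl tendsto_inv_cocompact tendsto_inv_zero _⟩
  have := second_onePoint _ hfl 0 (by rw [flip_coe, if_pos rfl])
  exact ⟨OnePoint F4⸨X⸩, inferInstance, inferInstance, inferInstance, twisted σ hσ χ hχ,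
    inferInstance, inferInstance, inferInstance, inferInstance,
    twisted_homeo σ hσ χ hχ tendsto_inv_cocompact tendsto_inv_zero hc,
    twisted_sharp σ hσ χ hχ, twisted_no_top σ hσ χ hχ w hw a ha hχa⟩

end Pool.Agent.Work.MP_3e0647_al.Mt
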